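import Pool.Agent.Q60.TM.Main

/-!
# The theta map is not an embedding of `𝒜_g(2,4)` for `g ≥ 4`

At a point `τ` of the Siegel upper half space which is the direct sum of two blocks, all first
derivatives of second order theta constants in the directions mixing the blocks vanish, and the
second derivatives in these directions are symmetric products of Hessians, by the heat equation.
The stabiliser in `Γ_g(2,4)` of our point consists of the matrices `± 1 ⊕ ± 1`, so the `2 × 2` minor
of the mixed block descends to a holomorphic function near the image point; the symmetry of the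
Hessians shows that it is not a holomorphic function of the theta constants.
-/

set_option autoImplicit false

namespace Pool.Agent.Results.MP_2bf81a_ag.NotEmbedding

open Pool.Agent.Q60.TM

/-- For every `g ≥ 4` there is a point at which the theta map is not an isomorphism onto its image,
so the theta map is not an embedding of `𝒜_g(2,4)`. -/
theorem result (g : ℕ) (hg : 4 ≤ g) :
    (∃ τ : SiegelSpace g, thetaVec τ ≠ 0 ∧ ¬ IsImmersionAt τ) ∧ ¬ IsEmbedding g := by
  have h1 : thetaVec (tau0 g) ≠ 0 := by
    intro h
    have h2 := congrFun h 0
    rw [← curve_zero (ix hg 0 (by norm_num)) (ix hg 2 (by norm_num)) (ix hg 0 (by norm_num))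
      (ix hg 2 (by norm_num)) 0, thetaVec_curve'] at h2
    · simp only [mul_zero, zero_mul, Real.cos_zero, mul_one, Pi.zero_apply] at h2
      rw [Complex.ofReal_eq_zero] at h2
      have h3 : 0 < ∑' n : Fin g → ℤ, cw (0 : Fin g → Fin 2) n :=
        (summable_cw _).tsum_pos (fun n => cw_nonneg _ n) 0 (Real.exp_pos _)
      exact h3.ne' h2
    · simp [blk, ix]
    · simp [blk, ix]
    · simp [blk, ix]
    · simp [blk, ix]
  exact ⟨⟨tau0 g, h1, not_immersion hg⟩, fun h => not_immersion hg (h.2 (tau0 g))⟩

end Pool.Agent.Results.MP_2bf81a_ag.NotEmbedding
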